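import Pool.Agent.H5.Eta

set_option autoImplicit false

namespace Pool.Agent.Results.MP_165839_co.Nonneg

open Pool.Agent.H5.EtaDefs

theorem result (V : Type) [Fintype V] (G : SimpleGraph V) (d : ℕ)
    (h : IsVariety G (d + 1) Finset.univ) : 0 ≤ eta G Finset.univ :=
  H5.Eta.nonneg h

end Pool.Agent.Results.MP_165839_co.Nonneg
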